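import Pool.Agent.CSM.Mon

/-!
MP_d94373_gt, full answer to Q1 (yes): for every `n ≥ 4` the connected-sum monoid of closed connected oriented smooth
n-manifolds contains a cancellable element which is not a unit.

`OMan n` is the type of closed connected oriented smooth n-manifolds, `Mon n` the quotient by orientation preserving
diffeomorphism, `cls M` the class of `M`, `ConnSum M N X` says that `X` is a connected sum of `M` and `N`, and
`sphereO n` is the standard sphere.  The statement: connected sums exist; there is a commutative monoid structure on
`Mon n` whose product is the connected sum (it is unique, since connected sums exist) and whose neutral element is the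
class of the sphere; it has an element `a` which is not a unit and such that `a * b = a * c` implies `b = c`.
-/

namespace Pool.Agent.Results.MP_d94373_gt.CancellableNonUnit

open Pool.Agent.CSM

theorem result (n : ℕ) (hn : 4 ≤ n) :
    (∀ M N : OMan n, ∃ X : OMan n, ConnSum M N X) ∧
    ∃ _ : CommMonoid (Mon n),
      (∀ M N X : OMan n, ConnSum M N X → cls M * cls N = cls X) ∧
      (1 : Mon n) = cls (sphereO n (by omega)) ∧
      ∃ a : Mon n, ¬ IsUnit a ∧ ∀ b c : Mon n, a * b = a * c → b = c :=
  main hn

end Pool.Agent.Results.MP_d94373_gt.CancellableNonUnit
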